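import Pool.Agent.Lib.MP_100fe7_nt.CmFinal

/-!
Closed formula for the Deligne periods `c^+(N)`, `c^-(N)` of every motive `N = ρ(M_1, …, M_t)` over
`ℚ` obtained from motives `M_i` over a CM field `F` by an algebraic representation `ρ` of the
`L`-group `(∏ GL(n_i)^{Hom(F, E)}) ⋊ Gal(F^gal/ℚ)`.
-/

open Pool.Agent.MP100fe7Cm NumberField

theorem Pool.Agent.Results.MP_100fe7_nt.CMPeriods.result
    (F : Type) [Field F] [NumberField F] [IsCMField F] (E : Type) [Field E] [NumberField E]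
    (hE : Split F E) (τ₀ : E →+* ℂ) (ι : Type) [Fintype ι] [DecidableEq ι] (n : ι → ℕ)
    (w : ι → ℤ) (M : ∀ i, Datum F E (n i) (w i)) (κ : Type) [Fintype κ] [DecidableEq κ]
    (ρ : Rep F E n κ) (Φ : Finset (F →+* E)) (hΦ : ∀ φ, φ ∈ Φ ↔ bar φ ∉ Φ) :
    (∀ i τ φ a, ∃ q : ℂ, q ≠ 0 ∧ ∀ q', (M i).IsHodgePeriod τ φ a q' ↔ q' = q) ∧
    (ρ.NoMiddle M → ∀ ε : E, ε = 1 ∨ ε = -1 →
      ρ.IsStep M hE τ₀ ε ((ρ.motWeight w + 1) / 2)) ∧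
    ∀ (ε : E) (a₀ : ℤ), ε = 1 ∨ ε = -1 → ρ.IsStep M hE τ₀ ε a₀ →
      (∃ x, ρ.IsPeriod M hE τ₀ ε x) ∧
      ∃ (k : ι → ℤ) (S : ι → (F →+* E) → ℤ → ℤ) (u : (E →+* ℂ) → E),
        (∀ i φ j, k i = ∑ s ∈ ρ.lowPart M a₀,
          (ρ.weight s ⟨(i, φ), j⟩ + ρ.weight s ⟨(i, bar φ), j⟩)) ∧
        (∀ i φ j, S i φ ((M i).p φ j) = ∑ s ∈ ρ.lowPart M a₀, ρ.weight s ⟨(i, φ), j⟩) ∧
        (∀ τ v, ρ.IsGalDet hE τ₀ ε (galElt hE τ τ₀) v ↔ v = u τ) ∧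
        (∀ τ, u τ ^ Nat.card (Gal F E) = 1) ∧
        ∀ x, ρ.IsPeriod M hE τ₀ ε x → (∀ τ, x τ ≠ 0) ∧
          ∃ e : E, e ≠ 0 ∧ ∀ (τ : E →+* ℂ) (q : ι → (F →+* E) → ℤ → ℂ),
            (∀ i, ∀ φ ∈ Φ, ∀ a ∈ (M i).indices φ, (M i).IsHodgePeriod τ φ a (q i φ a)) →
            x τ = τ e * τ (u τ) * ∏ i, ∏ φ ∈ Φ, (((M i).comp τ (bar φ)).det ^ k i *
              ∏ a ∈ (M i).indices φ, q i φ a ^ S i φ a) :=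
  cm_periods ρ M hE τ₀ Φ hΦ
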