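import Pool.Agent.Lib.MP_100fe7_nt.TRatio2

/-!
The ratio `c^+(N) / c^-(N)` of the two Deligne periods of every motive `N = ρ(M_1, …, M_t)`,
`ρ` an irreducible algebraic representation of `GL(M_1) × … × GL(M_t)`: up to `E^×` it is a power,
with an explicit exponent, of `c^+(M_i) / c^-(M_i)` for at most one `i`; motives with classes of
type `(w/2, w/2)` do not contribute.
-/

open Pool.Agent.MP100fe7 Pool.Agent.MP100fe7T TensorProduct

theorem Pool.Agent.Results.MP_100fe7_nt.SeveralRatio.result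
    (E : Type) [Field E] [NumberField E] (ι : Type) [Fintype ι] [DecidableEq ι]
    (σ : ι → Shape) (w : ι → ℤ) (M : ∀ i, Pool.Agent.MP100fe7T.Datum (E ⊗[ℚ] ℂ) (σ i) (w i))
    (κ : Type) [Fintype κ] [DecidableEq κ] (ρ : Rep E σ κ)
    (κ' : ι → Type) [∀ i, Fintype (κ' i)] (wt' : ∀ i, κ' i → (σ i).Idx → ℕ)
    (hchar : HasCharacter ρ wt')
    (lam : ∀ i, Fin ((σ i).n + (σ i).n) → ℕ) (hlam : ∀ i, Antitone (lam i))
    (hS : ∀ i, (σ i).m = 0 → (σ i).r = 0 → IsSchurChar (wt' i) (lam i))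
    (hmid : ρ.NoMiddle M) :
    ((∃ x : E ⊗[ℚ] ℂ, ρ.IsPeriod M (1 : E) x) ∧ ∃ y : E ⊗[ℚ] ℂ, ρ.IsPeriod M (-1 : E) y) ∧
    (∀ i, (σ i).m = 0 → (σ i).r = 0 →
      (∃ c : E ⊗[ℚ] ℂ, (M i).IsPeriod (1 : E) c) ∧ ∃ d : E ⊗[ℚ] ℂ, (M i).IsPeriod (-1 : E) d) ∧
    (∀ i, (σ i).m = 0 → (σ i).r = 0 →
      (evenCount (lam i) = (σ i).n → signTrace (wt' i) * halfProd (n := (σ i).n) 0 =
        (-1) ^ (∑ j, lam i j * ((σ i).n + (σ i).n - 1 - j)) * halfProd (lam i)) ∧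
      (evenCount (lam i) ≠ (σ i).n → signTrace (wt' i) = 0)) ∧
    ∃ K : ι → ℤ,
      (∀ i, (σ i).m = 0 → (σ i).r = 0 →
        (evenCount (lam i) + 1 = (σ i).n ∨ evenCount (lam i) = (σ i).n + 1) →
        K i * ((σ i).n * halfProd (n := (σ i).n) 0) =
          -(-1) ^ (∑ j, lam i j * ((σ i).n + (σ i).n - 1 - j)) * halfProd (lam i) *
            (-1) ^ (∑ k, ((σ k).n + (σ k).r) * ρ.twist k) *
            ∏ k ∈ Finset.univ.erase i, signTrace (wt' k)) ∧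
      (∀ i, ¬ ((σ i).m = 0 ∧ (σ i).r = 0 ∧
        (evenCount (lam i) + 1 = (σ i).n ∨ evenCount (lam i) = (σ i).n + 1)) → K i = 0) ∧
      (∀ i j, K i ≠ 0 → K j ≠ 0 → i = j) ∧
      ∀ (x y : E ⊗[ℚ] ℂ) (c d : ι → E ⊗[ℚ] ℂ), ρ.IsPeriod M (1 : E) x → ρ.IsPeriod M (-1 : E) y →
        (∀ i, (σ i).m = 0 → (σ i).r = 0 →
          (M i).IsPeriod (1 : E) (c i) ∧ (M i).IsPeriod (-1 : E) (d i)) →
        ∃ (x' y' : (E ⊗[ℚ] ℂ)ˣ) (c' d' : ι → (E ⊗[ℚ] ℂ)ˣ) (e : Eˣ),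
          (x' : E ⊗[ℚ] ℂ) = x ∧ (y' : E ⊗[ℚ] ℂ) = y ∧
          (∀ i, (σ i).m = 0 → (σ i).r = 0 →
            (c' i : E ⊗[ℚ] ℂ) = c i ∧ (d' i : E ⊗[ℚ] ℂ) = d i) ∧
          x' / y' = Units.map (algebraMap E (E ⊗[ℚ] ℂ)).toMonoidHom e *
            ∏ i, (c' i / d' i) ^ K i := by
  have hval : ∀ i, (σ i).m = 0 → (σ i).r = 0 →
      (evenCount (lam i) = (σ i).n → signTrace (wt' i) * halfProd (n := (σ i).n) 0 =
        (-1) ^ (∑ j, lam i j * ((σ i).n + (σ i).n - 1 - j)) * halfProd (lam i)) ∧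
      (evenCount (lam i) ≠ (σ i).n → signTrace (wt' i) = 0) := by
    intro i hm hr
    have h := schur_values hm hr (wt' i) (ρ.deg i) (hchar.1 i) (lam i) (hlam i) (hS i hm hr)
    exact ⟨h.1, h.2.1⟩
  obtain ⟨K, hK1, hK2, hK3⟩ := several_ratio ρ M hmid wt' hchar lam hlam hS
  refine ⟨⟨?_, ?_⟩, fun i hm hr => free_exists (M i) hm hr, hval, K, hK1, hK2, ?_, hK3⟩
  · have h := ρ.exists_period M _ 1 (ρ.isStep_of_noMiddle M hmid (Or.inl rfl))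
    rwa [Int.cast_one] at h
  · have h := ρ.exists_period M _ (-1) (ρ.isStep_of_noMiddle M hmid (Or.inr rfl))
    rwa [Int.cast_neg, Int.cast_one] at h
  · intro i j hi hj
    by_contra hne
    have hi' : (σ i).m = 0 ∧ (σ i).r = 0 ∧
        (evenCount (lam i) + 1 = (σ i).n ∨ evenCount (lam i) = (σ i).n + 1) := by
      by_contra h
      exact hi (hK2 i h)
    have hj' : (σ j).m = 0 ∧ (σ j).r = 0 ∧
        (evenCount (lam j) + 1 = (σ j).n ∨ evenCount (lam j) = (σ j).n + 1) := by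
      by_contra h
      exact hj (hK2 j h)
    have hT : signTrace (wt' i) = 0 := (hval i hi'.1 hi'.2.1).2 (by omega)
    have h1 := hK1 j hj'.1 hj'.2.1 hj'.2.2
    rw [Finset.prod_eq_zero (Finset.mem_erase.mpr ⟨hne, Finset.mem_univ i⟩) hT, mul_zero] at h1
    have hle := evenCount_le (lam j)
    have hn : ((σ j).n : ℤ) ≠ 0 := by
      have : (σ j).n ≠ 0 := by omega
      exact_mod_cast this
    have hh : (halfProd (n := (σ j).n) 0 : ℤ) ≠ 0 := by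
      exact_mod_cast halfProd_ne_zero (fun _ _ _ => le_rfl)
    rcases mul_eq_zero.mp h1 with h2 | h2
    · exact hj h2
    · exact mul_ne_zero hn hh h2
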