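import Pool.Agent.Lib.MP_100fe7_nt.TrPoint

/-!
Closed formula for the Deligne periods `c^+(N)`, `c^-(N)` of every motive `N = ρ(M_1, …, M_t)` over
`ℚ` obtained from motives `M_i` over a totally real field `F` by an algebraic representation `ρ` of
the `L`-group `(∏ GL(n_i)^{Hom(F, E)}) ⋊ Gal(F^gal/ℚ)`.
-/

open Pool.Agent.MP100fe7Tr NumberField
open Pool.Agent.MP100fe7Cm (Split Gal galElt)
open Pool.Agent.MP100fe7T (Shape Datum)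

theorem Pool.Agent.Results.MP_100fe7_nt.TotallyRealPeriods.result
    (F : Type) [Field F] [NumberField F] [IsTotallyReal F] (E : Type) [Field E] [NumberField E]
    (hE : Split F E) (τ₀ : E →+* ℂ) (ι : Type) [Fintype ι] [DecidableEq ι] (σ : ι → Shape)
    (w : ι → ℤ) (M : ∀ i, (F →+* E) → Datum (CE E) (σ i) (w i)) (κ : Type) [Fintype κ]
    [DecidableEq κ] (ρ : Rep F E σ κ) :
    (∀ i φ a, ∃ q : CE E, (∀ τ, q τ ≠ 0) ∧ ∀ q', (M i φ).IsHodgePeriod a q' ↔ q' = q) ∧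
    (∀ i φ, (σ i).m = 0 ∨ (σ i).r = 0 → (∃ c : CE E, (M i φ).IsPeriod (1 : E) c) ∧
      (∃ d : CE E, (M i φ).IsPeriod (-1 : E) d)) ∧
    (ρ.NoMiddle M → ∀ ε : ℤ, ε = 1 ∨ ε = -1 → ρ.IsStep M ε ((ρ.motWeight w + 1) / 2)) ∧
    ∀ (ε a₀ : ℤ), ε = 1 ∨ ε = -1 → ρ.IsStep M ε a₀ →
      (∃ x, ρ.IsPeriod M hE τ₀ (ε : E) x) ∧
      ∃ (A B : ι → ℤ) (S : ι → (F →+* E) → ℤ → ℤ) (u : (E →+* ℂ) → E),
        (∀ i φ j, (σ i).sgn j = 1 → A i = ∑ s ∈ ρ.signPart ε, ρ.weight s ⟨(i, φ), j⟩) ∧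
        (∀ i φ j, (σ i).sgn j = -1 → B i = ∑ s ∈ ρ.signPart ε, ρ.weight s ⟨(i, φ), j⟩) ∧
        (∀ i φ j, S i φ (w i - (M i φ).p j) =
          ∑ s ∈ ρ.lowPart M a₀, ρ.weight s ⟨(i, φ), Sum.inl (Sum.inr j)⟩) ∧
        (∀ i, (σ i).m ≠ 0 → (σ i).r ≠ 0 → A i = B i) ∧
        (∀ τ v, ρ.IsGalDet hE τ₀ (ε : E) (galElt hE τ τ₀) v ↔ v = u τ) ∧
        (∀ τ, u τ ^ Nat.card (Gal F E) = 1) ∧
        ∀ x, ρ.IsPeriod M hE τ₀ (ε : E) x → (∀ τ, x τ ≠ 0) ∧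
          ∀ (c d : ι → (F →+* E) → CE E) (q : ι → (F →+* E) → ℤ → CE E),
            (∀ i φ, (σ i).m = 0 ∨ (σ i).r = 0 →
              (M i φ).IsPeriod (1 : E) (c i φ) ∧ (M i φ).IsPeriod (-1 : E) (d i φ)) →
            (∀ i φ, ∀ a ∈ (M i φ).lowIndices, (M i φ).IsHodgePeriod a (q i φ a)) →
            (∀ i φ τ, (σ i).m = 0 ∨ (σ i).r = 0 → c i φ τ ≠ 0 ∧ d i φ τ ≠ 0) ∧
            ∃ e : E, e ≠ 0 ∧ ∀ τ : E →+* ℂ,
              x τ = τ e * τ (u τ) * ∏ i, ∏ φ : F →+* E,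
                if (σ i).m = 0 ∨ (σ i).r = 0 then
                  c i φ τ ^ A i * d i φ τ ^ B i *
                    ∏ a ∈ (M i φ).lowIndices, q i φ a τ ^ (S i φ a - A i - B i)
                else (M i φ).comp.det τ ^ A i *
                  ∏ a ∈ (M i φ).lowIndices, q i φ a τ ^ (S i φ a - A i) :=
  tr_periods ρ hE τ₀ M
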